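import Pool.Agent.Helper86.NB.St

/-!
# Project NB (MP_cd9119_pr), module ITR: the iterated mean value property
-/

set_option autoImplicit false

namespace Pool.Agent.Helper82.NB

open Filter Topology Pool.Agent.Helper86.NB Pool.Agent.Helper86.ML Pool.Agent.Helper67.Cour

/-- The iterated mean value property (the proof is that of `harm_pw`, Helper38/ML/M_CR1.lean). -/
theorem harm_pw {G : Type} [Group G] {ν : G → ℝ} (hν : Prob ν) {f : G → ℂ} {C : ℝ}
    (hC : ∀ x, ‖f x‖ ≤ C) (hh : Harm ν f) (n : ℕ) (x : G) :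
    f x = ∑' y, f (x * y⁻¹) * (pw ν n y : ℂ) := by
  classical
  induction n generalizing x with
  | zero =>
    rw [tsum_eq_single 1]
    · simp [pw_zero, dl_one]
    · intro y hy
      simp [pw_zero, dl, hy]
  | succ n ih =>
    have h1 : Summable fun z : G × G => ν z.1 * pw ν n z.2 :=
      summable_mul_of_summable_norm hν.summable.norm (pw_prob hν n).summable.norm
    have hsum : Summable (Function.uncurry fun s y : G =>
        f (x * s⁻¹ * y⁻¹) * (pw ν n y : ℂ) * (ν s : ℂ)) := by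
      refine Summable.of_norm_bounded (g := fun z : G × G => C * ‖ν z.1 * pw ν n z.2‖)
        (h1.norm.mul_left C) ?_
      rintro ⟨s, y⟩
      show ‖f (x * s⁻¹ * y⁻¹) * (pw ν n y : ℂ) * (ν s : ℂ)‖ ≤ C * ‖ν s * pw ν n y‖
      rw [norm_mul, norm_mul, Complex.norm_real, Complex.norm_real, norm_mul, mul_assoc,
        mul_comm ‖pw ν n y‖]
      exact mul_le_mul_of_nonneg_right (hC _) (by positivity)
    have hsum2 : Summable (Function.uncurry fun y z : G =>
        f (x * z⁻¹) * (pw ν n y : ℂ) * (ν (y⁻¹ * z) : ℂ)) := by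
      have h2 := summable_cv2 (pw_prob hν n).summable hν.summable
      refine Summable.of_norm_bounded (g := fun z : G × G => C * ‖pw ν n z.1 * ν (z.1⁻¹ * z.2)‖)
        (h2.norm.mul_left C) ?_
      rintro ⟨y, z⟩
      show ‖f (x * z⁻¹) * (pw ν n y : ℂ) * (ν (y⁻¹ * z) : ℂ)‖ ≤ C * ‖pw ν n y * ν (y⁻¹ * z)‖
      rw [norm_mul, norm_mul, Complex.norm_real, Complex.norm_real, norm_mul, mul_assoc]
      exact mul_le_mul_of_nonneg_right (hC _) (by positivity)
    calc f x = ∑' s, f (x * s⁻¹) * (ν s : ℂ) := hh x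
      _ = ∑' s, ∑' y, f (x * s⁻¹ * y⁻¹) * (pw ν n y : ℂ) * (ν s : ℂ) := by
          apply tsum_congr
          intro s
          rw [ih (x * s⁻¹), tsum_mul_right]
      _ = ∑' y, ∑' s, f (x * s⁻¹ * y⁻¹) * (pw ν n y : ℂ) * (ν s : ℂ) := hsum.tsum_comm.symm
      _ = ∑' y, ∑' z, f (x * z⁻¹) * (pw ν n y : ℂ) * (ν (y⁻¹ * z) : ℂ) := by
          apply tsum_congr
          intro y
          rw [← (Equiv.mulLeft y⁻¹).tsum_eq
            (fun s => f (x * s⁻¹ * y⁻¹) * (pw ν n y : ℂ) * (ν s : ℂ))]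
          apply tsum_congr
          intro z
          have : x * (y⁻¹ * z)⁻¹ * y⁻¹ = x * z⁻¹ := by group
          show f (x * (y⁻¹ * z)⁻¹ * y⁻¹) * (pw ν n y : ℂ) * (ν (y⁻¹ * z) : ℂ) = _
          rw [this]
      _ = ∑' z, ∑' y, f (x * z⁻¹) * (pw ν n y : ℂ) * (ν (y⁻¹ * z) : ℂ) := hsum2.tsum_comm.symm
      _ = ∑' z, f (x * z⁻¹) * (pw ν (n + 1) z : ℂ) := by
          apply tsum_congr
          intro z
          rw [pw_succ' hν]
          show _ = f (x * z⁻¹) * ((∑' s, pw ν n s * ν (s⁻¹ * z) : ℝ) : ℂ)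
          rw [Complex.ofReal_tsum, ← tsum_mul_left]
          apply tsum_congr
          intro y
          push_cast
          ring

theorem itr_symm {G : Type} [Group G] {κ : G → ℝ} (hκ : Prob κ) (hs : ∀ x, κ x⁻¹ = κ x)
    {f : G → ℂ} (hb : Bdd f) (hh : Harm κ f) (n : ℕ) (x : G) :
    f x = ∑' y, (pw κ n y : ℂ) * f (x * y) := by
  obtain ⟨C, hC⟩ := hb
  conv_lhs => rw [harm_pw hκ hC hh n x]
  rw [← (Equiv.inv G).tsum_eq (fun y => f (x * y⁻¹) * (pw κ n y : ℂ))]
  apply tsum_congr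
  intro z
  show f (x * (z⁻¹)⁻¹) * (pw κ n z⁻¹ : ℂ) = _
  rw [inv_inv, pw_symm hκ hs, mul_comm]

theorem diff_le {G : Type} [Group G] {P : G → ℝ} {f : G → ℂ} {C : ℝ} (hP : Prob P)
    (hC : ∀ x, ‖f x‖ ≤ C) (hh : ∀ x : G, f x = ∑' y, (P y : ℂ) * f (x * y)) (x g : G) :
    ‖f (x * g) - f x‖ ≤ C * l1 (tr g P) P := by
  have hp := hP.summable
  have hb : ∀ (p : G → ℝ), Summable p → Summable fun z => (p z : ℂ) * f (x * z) := by
    intro p hp
    refine Summable.of_norm_bounded (g := fun y => C * |p y|) (hp.abs.mul_left C) ?_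
    intro y
    rw [norm_mul, Complex.norm_real, Real.norm_eq_abs, mul_comm]
    exact mul_le_mul_of_nonneg_right (hC _) (abs_nonneg _)
  have h1 : f (x * g) = ∑' z, (tr g P z : ℂ) * f (x * z) := by
    rw [hh (x * g), ← (Equiv.mulLeft g⁻¹).tsum_eq (fun y => (P y : ℂ) * f (x * g * y))]
    apply tsum_congr
    intro z
    show (P (g⁻¹ * z) : ℂ) * f (x * g * (g⁻¹ * z)) = (P (g⁻¹ * z) : ℂ) * f (x * z)
    have e1 : x * g * (g⁻¹ * z) = x * z := by group
    rw [e1]
  have h3 : f (x * g) - f x = ∑' z, ((tr g P z - P z : ℝ) : ℂ) * f (x * z) := by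
    rw [h1]
    conv_lhs => rw [hh x]
    rw [← (hb _ (summable_tr hp g)).tsum_sub (hb _ hp)]
    apply tsum_congr
    intro z
    push_cast
    ring
  have hl := l1_summable (summable_tr hp g) hp
  rw [h3]
  have h4 : Summable fun z => ‖((tr g P z - P z : ℝ) : ℂ) * f (x * z)‖ :=
    (hb _ ((summable_tr hp g).sub hp)).norm
  refine (norm_tsum_le_tsum_norm h4).trans ?_
  unfold l1
  rw [← tsum_mul_left]
  refine h4.tsum_le_tsum (fun z => ?_) (hl.mul_left C)
  rw [norm_mul, Complex.norm_real, Real.norm_eq_abs, mul_comm]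
  exact mul_le_mul_of_nonneg_right (hC _) (abs_nonneg _)

theorem hITR (h1 : StLAZ) : StITR := by
  refine ⟨?_, ?_, ?_⟩
  · intro G _ μ f hμ hb hh n x
    obtain ⟨hc, hH, _⟩ := h1 G μ hμ
    exact itr_symm (Pool.Agent.Helper86.ML.Courteous.prob hc) hc.symm hb ((hH f hb).2 hh) n x
  · intro G _ κ f hκ hs hb hh n x
    exact itr_symm hκ hs hb hh n x
  · intro G _ P f C hP hC hh x g
    exact diff_le hP hC hh x g

end Pool.Agent.Helper82.NB
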