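import Pool.Agent.Helper86.NB.St

/-!
# Project NB (MP_cd9119_pr), module RIN: increments of the conditional entropy
-/

set_option autoImplicit false

namespace Pool.Agent.Helper82.NB

open Filter Topology Pool.Agent.Helper86.NB Pool.Agent.Helper86.ML Pool.Agent.Helper67.Cour

theorem hasSum_opt {G : Type} (F : Option G → ℝ) (a : ℝ) (h : HasSum (fun s => F (some s)) a) :
    HasSum F (F none + a) := by
  classical
  have h1 : HasSum (fun o : Option G => if o = none then F none else 0) (F none) :=
    hasSum_ite_eq none (F none)
  have h2 : HasSum (fun o : Option G => o.elim 0 (fun s => F (some s))) a := by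
    refine ((Option.some_injective G).hasSum_iff ?_).1 h
    intro o ho
    cases o with
    | none => rfl
    | some s => exact absurd ⟨s, rfl⟩ ho
  have h3 := h1.add h2
  have h4 : (fun o : Option G => (if o = none then F none else 0) +
      o.elim 0 (fun s => F (some s))) = F := by
    funext o
    cases o with
    | none => simp
    | some s => simp
  rwa [h4] at h3

/-- The quotient of an average. -/
theorem quot_avg {G : Type} [Group G] (N : Subgroup G) {p q : G → ℝ} (hp : Summable p)
    (hq : Summable q) (r : G ⧸ N) :
    quot N (fun x => (p x + q x) / 2) r = (quot N p r + quot N q r) / 2 := by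
  have h1 : Summable fun x : {x : G // (x : G ⧸ N) = r} => p x := hp.subtype _
  have h2 : Summable fun x : {x : G // (x : G ⧸ N) = r} => q x := hq.subtype _
  show (∑' x : {x : G // (x : G ⧸ N) = r}, (p x + q x) / 2) = _
  rw [tsum_div_const, h1.tsum_add h2]
  rfl

theorem hRIN (h1 : StQPW) (h2 : StRMI) (h3 : StSC) (h4 : StFEC) : StRIN := by
  classical
  intro G _ N _ ν P g m hν hP hFν hFP hgN hg hm hm1 hmg
  obtain ⟨_, _, htr, _, _⟩ := h1 G N
  obtain ⟨hFQ, hEQ⟩ := h3 G P (tr g P) hP (hP.tr g) hFP (FE_tr hFP g)
  rw [Ent_tr] at hEQ
  obtain ⟨hFcv, _⟩ := h4 G ν P hν hP hFν hFP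
  let Q : G → ℝ := fun x => (P x + tr g P x) / 2
  have hQ : Prob Q := by
    refine ⟨fun x => ?_, ?_⟩
    · have := hP.nonneg x
      have := (hP.tr g).nonneg x
      change 0 ≤ (P x + tr g P x) / 2
      linarith
    · have h4 := (hP.sum_one.add (hP.tr g).sum_one).div_const 2
      have h5 : (1 + 1 : ℝ) / 2 = 1 := by norm_num
      rw [h5] at h4
      exact h4
  have hg1 : (g : G ⧸ N) = 1 := (QuotientGroup.eq_one_iff g).2 hgN
  have hqg : quot N (tr g P) = quot N P := by
    rw [htr P g, hg1, tr_one]
  have hqQ : quot N Q = quot N P := by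
    funext r
    change quot N (fun x => (P x + tr g P x) / 2) r = quot N P r
    rw [quot_avg N hP.summable (hP.tr g).summable r, hqg]
    ring
  let v : G → ℝ := fun s => ν s - (if s = 1 then m else 0) - (if s = g then m else 0)
  let w : Option G → ℝ := fun o => o.elim (2 * m) v
  let R : Option G → G → ℝ := fun o => o.elim Q (fun s => tr s P)
  have hv0 : ∀ s, 0 ≤ v s := by
    intro s
    change 0 ≤ ν s - (if s = 1 then m else 0) - (if s = g then m else 0)
    by_cases hs1 : s = 1
    · subst hs1
      rw [if_pos rfl, if_neg (Ne.symm hg)]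
      linarith
    · rw [if_neg hs1]
      by_cases hsg : s = g
      · subst hsg
        rw [if_pos rfl]
        linarith
      · rw [if_neg hsg]
        have := hν.nonneg s
        linarith
  have hvs : HasSum v (1 - m - m) :=
    (hν.sum_one.sub (hasSum_ite_eq 1 m)).sub (hasSum_ite_eq g m)
  have hw : Prob w := by
    refine ⟨fun o => ?_, ?_⟩
    · cases o with
      | none => change 0 ≤ 2 * m; linarith
      | some s => exact hv0 s
    · have h4 := hasSum_opt w (1 - m - m) hvs
      have h5 : w none + (1 - m - m) = 1 := by
        change 2 * m + (1 - m - m) = 1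
        ring
      rwa [h5] at h4
  have hR : ∀ o, Prob (R o) := by
    intro o
    cases o with
    | none => exact hQ
    | some s => exact hP.tr s
  have hRF : ∀ o, FE (R o) := by
    intro o
    cases o with
    | none => exact hFQ
    | some s => exact FE_tr hFP s
  have hmix : (fun x => ∑' o, w o * R o x) = cv ν P := by
    funext x
    have h4 : HasSum (fun s => v s * tr s P x) (cv ν P x - m * P x - m * tr g P x) := by
      have h5 : HasSum (fun s => ν s * tr s P x) (cv ν P x) :=
        (summable_cv_left hν.summable hP.summable x).hasSum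
      have h6 : HasSum (fun s : G => if s = 1 then m * P x else 0) (m * P x) := hasSum_ite_eq 1 _
      have h7 : HasSum (fun s : G => if s = g then m * tr g P x else 0) (m * tr g P x) :=
        hasSum_ite_eq g _
      have h8 := (h5.sub h6).sub h7
      have h9 : (fun s => ν s * tr s P x - (if s = 1 then m * P x else 0) -
          (if s = g then m * tr g P x else 0)) = fun s => v s * tr s P x := by
        funext s
        change _ = (ν s - (if s = 1 then m else 0) - (if s = g then m else 0)) * tr s P x
        by_cases hs1 : s = 1
        · subst hs1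
          rw [if_pos rfl, if_pos rfl, if_neg (Ne.symm hg), if_neg (Ne.symm hg), tr_one]
          ring
        · rw [if_neg hs1, if_neg hs1]
          by_cases hsg : s = g
          · subst hsg
            rw [if_pos rfl, if_pos rfl]
            ring
          · rw [if_neg hsg, if_neg hsg]
            ring
      rwa [h9] at h8
    have h5 := hasSum_opt (fun o => w o * R o x) _ h4
    rw [h5.tsum_eq]
    change 2 * m * ((P x + tr g P x) / 2) + (cv ν P x - m * P x - m * tr g P x) = cv ν P x
    ring
  obtain ⟨_, hE⟩ := h2 G (Option G) N w R hw hR hRF (by rw [hmix]; exact hFcv)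
  rw [hmix] at hE
  have hsum : HasSum (fun o => w o * (Ent (R o) - Ent (quot N (R o))))
      (2 * m * (Ent Q - Ent (quot N P)) + (1 - m - m) * (Ent P - Ent (quot N P))) := by
    have h4 : HasSum (fun s => w (some s) * (Ent (R (some s)) - Ent (quot N (R (some s)))))
        ((1 - m - m) * (Ent P - Ent (quot N P))) := by
      have h5 := hvs.mul_right (Ent P - Ent (quot N P))
      have h6 : (fun s => v s * (Ent P - Ent (quot N P))) =
          fun s => w (some s) * (Ent (R (some s)) - Ent (quot N (R (some s)))) := by
        funext s
        change v s * (Ent P - Ent (quot N P)) = v s * (Ent (tr s P) - Ent (quot N (tr s P)))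
        rw [Ent_tr, htr P s, Ent_tr]
      rwa [h6] at h5
    have h7 := hasSum_opt (fun o => w o * (Ent (R o) - Ent (quot N (R o)))) _ h4
    have h8 : w none * (Ent (R none) - Ent (quot N (R none))) =
        2 * m * (Ent Q - Ent (quot N P)) := by
      change 2 * m * (Ent Q - Ent (quot N Q)) = _
      rw [hqQ]
    rwa [h8] at h7
  rw [hsum.tsum_eq] at hE
  rw [l1_comm]
  have h10 : (Ent P + Ent P) / 2 + l1 P (tr g P) ^ 2 / 8 ≤ Ent Q := hEQ
  nlinarith [mul_le_mul_of_nonneg_left h10 hm]

end Pool.Agent.Helper82.NB
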